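import Mathlib
import Pool.Agent.H865Z.Saw.Defs
import Pool.Agent.H865Z.Saw.Flow

namespace Pool.Agent.Results.MP_f8169a_pr.AHalfPlane

open Pool.Agent.H865Z.Saw

/-- On the tree of self-avoiding walks in the upper half-plane: if the walk biased by `b` is
recurrent (no unit flow of finite energy) for every `0 < b < c`, it is recurrent for the bias `c`.
In particular it is recurrent at the critical bias. -/
theorem result (c : ℝ) (hc : 0 < c)
    (h : ∀ b : ℝ, 0 < b → b < c → ¬ HasFiniteEnergyFlow b) : ¬ HasFiniteEnergyFlow c :=
  Pool.Agent.H865Z.Saw.main hc h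

end Pool.Agent.Results.MP_f8169a_pr.AHalfPlane
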